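import Mathlib

/-!
# Conjugates of subgroups of the symmetric group with small intersection
-/

namespace Q6.BaseSn

open Equiv Equiv.Perm
open scoped Pointwise

variable {n : ℕ} {H : Subgroup (Perm (Fin n))}

theorem three_apply {c : Perm (Fin n)} (hc : IsThreeCycle c) {x : Fin n} (hx : c x ≠ x) :
    c (c (c x)) = x ∧ ∀ z, z ≠ x → z ≠ c x → z ≠ c (c x) → c z = z := by
  have h3 : c ^ 3 = 1 := by
    have := pow_orderOf_eq_one c
    rwa [hc.orderOf] at this
  refine ⟨?_, ?_⟩
  · have := congrArg (fun f : Perm (Fin n) => f x) h3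
    exact this
  · intro z h1 h2 h4
    have hs := (hc.support_eq_iff_mem_support (a := x)).2 (mem_support.2 hx)
    by_contra hz
    have hz' : z ∈ c.support := mem_support.2 hz
    rw [hs] at hz'
    simp only [Finset.mem_insert, Finset.mem_singleton] at hz'
    tauto

/-- Two points are related if a 3-cycle of `H` maps one to the other. -/
def Rel (H : Subgroup (Perm (Fin n))) (x y : Fin n) : Prop :=
  x = y ∨ ∃ c ∈ H, IsThreeCycle c ∧ c x = y

theorem Rel.symm {x y : Fin n} (h : Rel H x y) : Rel H y x := by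
  rcases h with rfl | ⟨c, hc, h3, rfl⟩
  · exact Or.inl rfl
  · exact Or.inr ⟨c⁻¹, H.inv_mem hc, h3.inv, c.symm_apply_apply x⟩

theorem Rel.trans {x y z : Fin n} (h : Rel H x y) (h' : Rel H y z) : Rel H x z := by
  by_cases hxz : x = z
  · exact Or.inl hxz
  rcases h with rfl | ⟨c, hc, h3, hcx⟩
  · exact h'
  rcases h' with rfl | ⟨d, hd, h3', hdy⟩
  · exact Or.inr ⟨c, hc, h3, hcx⟩
  by_cases hxy : x = y
  · exact Or.inr ⟨d, hd, h3', by rw [hxy, hdy]⟩
  by_cases hyz : y = z
  · exact Or.inr ⟨c, hc, h3, by rw [hcx, hyz]⟩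
  have hcx' : c x ≠ x := by rw [hcx]; exact Ne.symm hxy
  obtain ⟨e1, e2⟩ := three_apply h3 hcx'
  rw [hcx] at e1 e2
  by_cases hz : z = c y
  · refine Or.inr ⟨c⁻¹, H.inv_mem hc, h3.inv, ?_⟩
    rw [inv_eq_iff_eq, hz, e1]
  · have h4 : c z = z := e2 z (Ne.symm hxz) (Ne.symm hyz) hz
    right
    refine ⟨c⁻¹ * d * c, H.mul_mem (H.mul_mem (H.inv_mem hc) hd) hc, ?_, ?_⟩
    · have h5 : c⁻¹ * d * c = c⁻¹ * d * (c⁻¹)⁻¹ := by rw [inv_inv]
      rw [h5, ← card_support_eq_three_iff, card_support_conj, h3'.card_support]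
    · show c⁻¹ (d (c x)) = z
      rw [hcx, hdy, inv_eq_iff_eq]
      exact h4.symm

/-- If all points are related then `H` contains the alternating group. -/
theorem alt_le (h : ∀ x y, Rel H x y) {c : Perm (Fin n)} (hc : c ∈ H) (h3 : IsThreeCycle c) :
    alternatingGroup (Fin n) ≤ H := by
  have htrans : MulAction.IsPretransitive H (Fin n) := by
    constructor
    intro x y
    rcases h x y with rfl | ⟨c, hc, -, hcx⟩
    · exact ⟨1, rfl⟩
    · exact ⟨⟨c, hc⟩, hcx⟩
  have hprim : MulAction.IsPreprimitive H (Fin n) := by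
    refine { toIsPretransitive := htrans, isTrivialBlock_of_isBlock := ?_ }
    intro B hB
    by_contra hcon
    unfold MulAction.IsTrivialBlock at hcon
    push Not at hcon
    obtain ⟨hB1, hB2⟩ := hcon
    obtain ⟨x, hx, y, hy, hxy⟩ := hB1
    obtain ⟨z, hz⟩ := (Set.ne_univ_iff_exists_notMem B).1 hB2
    have hxz : x ≠ z := fun h => hz (h ▸ hx)
    have hyz : y ≠ z := fun h => hz (h ▸ hy)
    rcases h x z with h1 | ⟨c, hc, h3, hcx⟩
    · exact hxz h1
    have hcx' : c x ≠ x := by rw [hcx]; exact Ne.symm hxz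
    obtain ⟨e1, e2⟩ := three_apply h3 hcx'
    rw [hcx] at e1 e2
    have hne : ((⟨c, hc⟩ : H) • B) ≠ ((1 : H) • B) := by
      intro h4
      rw [one_smul] at h4
      apply hz
      rw [← h4, ← hcx]
      exact ⟨x, hx, rfl⟩
    have hdis := hB hne
    rw [Set.disjoint_left] at hdis
    rw [one_smul] at hdis
    have hcy : c y ∉ B := hdis ⟨y, hy, rfl⟩
    have hyc : y = c z := by
      by_contra hne'
      have := e2 y (Ne.symm hxy) hyz hne'
      rw [this] at hcy
      exact hcy hy
    rw [hyc, e1] at hcy
    exact hcy hx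
  exact alternatingGroup_le_of_isPreprimitive_of_isThreeCycle_mem hprim h3 hc

theorem conj_swap (f : Perm (Fin n)) (a b : Fin n) :
    f * swap a b * f⁻¹ = swap (f a) (f b) := by
  rw [mul_swap_eq_swap_mul, mul_inv_cancel_right]

theorem conj_two (f : Perm (Fin n)) (a b c d : Fin n) :
    f * (swap a b * swap c d) * f⁻¹ = swap (f a) (f b) * swap (f c) (f d) := by
  rw [← conj_swap f a b, ← conj_swap f c d]
  group

/-- The basic observation. -/
theorem edge_mem {h : Perm (Fin n)} (hH : h ∈ H) {i j : Fin n}
    (hc : swap i j * h * swap i j ∈ H) : swap (h i) (h j) * swap i j ∈ H := by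
  have h1 := H.mul_mem hH (H.inv_mem hc)
  have h2 : h * (swap i j * h * swap i j)⁻¹ = swap (h i) (h j) * swap i j := by
    calc h * (swap i j * h * swap i j)⁻¹ = h * (swap i j)⁻¹ * h⁻¹ * (swap i j)⁻¹ := by group
      _ = swap (h i) (h j) * swap i j := by rw [swap_inv, conj_swap]
  rwa [h2] at h1

/-- Product of two adjacent transpositions. -/
theorem three_of_adj {i j k : Fin n} (h1 : i ≠ j) (h2 : i ≠ k) (h3 : j ≠ k) :
    IsThreeCycle (swap i j * swap i k) := isThreeCycle_swap_mul_swap_same h1 h2 h3

/-- Case 1: the subgroup contains a 3-cycle. -/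
theorem case_one (hA : ¬ alternatingGroup (Fin n) ≤ H) {c : Perm (Fin n)} (hc : c ∈ H)
    (h3 : IsThreeCycle c) :
    ∃ S : Finset (Perm (Fin n)), S.card ≤ n ∧ ∀ h, (∀ g ∈ S, g⁻¹ * h * g ∈ H) → h = 1 := by
  classical
  have hall : ∃ x y, ¬ Rel H x y := by
    by_contra hcon
    push Not at hcon
    exact hA (alt_le hcon hc h3)
  -- a point moved by `c`
  obtain ⟨i0, hi0⟩ : ∃ i, c i ≠ i := by
    by_contra hcon
    push Not at hcon
    exact h3.ne_one (Equiv.ext hcon)
  set i1 := c i0 with hi1
  set i2 := c i1 with hi2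
  obtain ⟨e1, e2⟩ := three_apply h3 hi0
  rw [← hi1, ← hi2] at e1 e2
  have h01 : i0 ≠ i1 := Ne.symm hi0
  have h12 : i1 ≠ i2 := fun h => hi0 (c.injective h).symm
  have h02 : i0 ≠ i2 := by
    intro h
    rw [← h, ← hi1] at e1
    exact h01 e1.symm
  have r01 : Rel H i0 i1 := Or.inr ⟨c, hc, h3, rfl⟩
  have r12 : Rel H i1 i2 := Or.inr ⟨c, hc, h3, rfl⟩
  -- a point not related to `i0`
  obtain ⟨j0, hj0⟩ : ∃ j, ¬ Rel H i0 j := by
    by_contra hcon
    push Not at hcon
    obtain ⟨x, y, hxy⟩ := hall
    exact hxy ((hcon x).symm.trans (hcon y))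
  -- edges between related and non related points form singleton classes
  have key : ∀ i j k l, Rel H i0 i → ¬ Rel H i0 j → k ≠ l → swap k l * swap i j ∈ H →
      (k = i ∧ l = j) ∨ (k = j ∧ l = i) := by
    intro i j k l hi hj hkl hmem
    have hij : i ≠ j := by
      rintro rfl
      exact hj hi
    by_cases hki : k = i
    · left
      refine ⟨hki, ?_⟩
      by_contra hlj
      subst hki
      have h4 := three_of_adj hkl hij hlj
      apply hj
      apply hi.trans
      have h5 : (swap k l * swap k j) j = l := by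
        rw [mul_apply, swap_apply_right, swap_apply_left]
      have h6 : (swap k l * swap k j) k = j := by
        rw [mul_apply, swap_apply_left, swap_apply_of_ne_of_ne (Ne.symm hij) (Ne.symm hlj)]
      exact Or.inr ⟨_, hmem, h4, h6⟩
    by_cases hkj : k = j
    · right
      refine ⟨hkj, ?_⟩
      by_contra hli
      subst hkj
      have h4 : IsThreeCycle (swap k l * swap i k) := by
        rw [swap_comm i k]
        exact three_of_adj hkl (Ne.symm hij) hli
      apply hj
      apply hi.trans
      have h6 : (swap k l * swap i k) k = i := by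
        rw [mul_apply, swap_apply_right, swap_apply_of_ne_of_ne hij (Ne.symm hli)]
      exact Rel.symm (Or.inr ⟨_, hmem, h4, h6⟩)
    by_cases hli : l = i
    · exfalso
      subst hli
      have h4 : IsThreeCycle (swap k l * swap l j) := by
        rw [swap_comm k l]
        exact three_of_adj (Ne.symm hkl) hij hkj
      apply hj
      apply hi.trans
      have h6 : (swap k l * swap l j) l = j := by
        rw [mul_apply, swap_apply_left, swap_apply_of_ne_of_ne (Ne.symm hkj) (Ne.symm hij)]
      exact Or.inr ⟨_, hmem, h4, h6⟩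
    by_cases hlj : l = j
    · exfalso
      subst hlj
      have h4 : IsThreeCycle (swap k l * swap i l) := by
        rw [swap_comm k l, swap_comm i l]
        exact three_of_adj (Ne.symm hkl) (Ne.symm hij) hki
      apply hj
      apply hi.trans
      have h6 : (swap k l * swap i l) l = i := by
        rw [mul_apply, swap_apply_right, swap_apply_of_ne_of_ne (Ne.symm hki) hij]
      exact Rel.symm (Or.inr ⟨_, hmem, h4, h6⟩)
    -- the disjoint case
    exfalso
    set u := swap k l * swap i j with hu
    have ui : u i = j := by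
      rw [hu, mul_apply, swap_apply_left, swap_apply_of_ne_of_ne (Ne.symm hkj) (Ne.symm hlj)]
    have uk : u k = l := by
      rw [hu, mul_apply, swap_apply_of_ne_of_ne hki hkj, swap_apply_left]
    have ul : u l = k := by
      rw [hu, mul_apply, swap_apply_of_ne_of_ne hli hlj, swap_apply_right]
    have uo : ∀ x, x ≠ i → x ≠ j → x ≠ k → x ≠ l → u x = x := by
      intro x h1 h2 h4 h5
      rw [hu, mul_apply, swap_apply_of_ne_of_ne h1 h2, swap_apply_of_ne_of_ne h4 h5]
    have hconj : ∀ x y, Rel H x y → Rel H (u x) (u y) := by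
      rintro x y (rfl | ⟨c, hc, h3, rfl⟩)
      · exact Or.inl rfl
      · refine Or.inr ⟨u * c * u⁻¹, H.mul_mem (H.mul_mem hmem hc) (H.inv_mem hmem), ?_, ?_⟩
        · rw [← card_support_eq_three_iff, card_support_conj, h3.card_support]
        · show u (c (u⁻¹ (u x))) = u (c x)
          have : u⁻¹ (u x) = x := u.symm_apply_apply x
          rw [this]
    -- every point related to `i` different from `i` is `k` or `l`
    have hrel : ∀ y, Rel H i y → y ≠ i → y = k ∨ y = l := by
      intro y hy hyi
      by_contra hcon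
      push Not at hcon
      have hyj : y ≠ j := by
        rintro rfl
        exact hj (hi.trans hy)
      have h1 := hconj i y hy
      rw [ui, uo y hyi hyj hcon.1 hcon.2] at h1
      exact hj ((hi.trans hy).trans h1.symm)
    -- there are two of them, and `u` maps `k` to `l`
    have hex : ∃ y z, y ≠ z ∧ y ≠ i ∧ z ≠ i ∧ Rel H i y ∧ Rel H i z := by
      by_cases hi0i : i = i0
      · exact ⟨i1, i2, h12, by rw [hi0i]; exact h01.symm, by rw [hi0i]; exact h02.symm,
          by rw [hi0i]; exact r01, by rw [hi0i]; exact r01.trans r12⟩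
      · by_cases hi1i : i = i1
        · exact ⟨i0, i2, h02, Ne.symm hi0i, by rw [hi1i]; exact h12.symm,
            hi.symm, by rw [hi1i]; exact r12⟩
        · exact ⟨i0, i1, h01, Ne.symm hi0i, Ne.symm hi1i, hi.symm, hi.symm.trans r01⟩
    obtain ⟨y, z, hyz, hyi, hzi, hy, hz⟩ := hex
    have hy' := hrel y hy hyi
    have hz' := hrel z hz hzi
    have hk : Rel H i k := by
      rcases hy' with rfl | rfl
      · exact hy
      · rcases hz' with rfl | rfl
        · exact hz
        · exact absurd rfl hyz
    have hl : Rel H i l := by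
      rcases hy' with rfl | rfl
      · rcases hz' with rfl | rfl
        · exact absurd rfl hyz
        · exact hz
      · exact hy
    have h1 := hconj i k hk
    rw [ui, uk] at h1
    exact hj ((hi.trans hl).trans h1.symm)
  -- the family
  let S1 : Finset (Perm (Fin n)) := (Finset.univ.filter (fun j => ¬ Rel H i0 j)).image
    (fun j => swap i0 j)
  let S2 : Finset (Perm (Fin n)) :=
    ((Finset.univ.filter (fun i => Rel H i0 i)).erase i0).image (fun i => swap i j0)
  refine ⟨insert 1 (S1 ∪ S2), ?_, ?_⟩
  · have c1 : S1.card ≤ (Finset.univ.filter (fun j => ¬ Rel H i0 j)).card :=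
      Finset.card_image_le
    have c2 : S2.card ≤ ((Finset.univ.filter (fun i => Rel H i0 i)).erase i0).card :=
      Finset.card_image_le
    have hmem : i0 ∈ Finset.univ.filter (fun i => Rel H i0 i) :=
      Finset.mem_filter.2 ⟨Finset.mem_univ _, Or.inl rfl⟩
    rw [Finset.card_erase_of_mem hmem] at c2
    have c3 := Finset.card_filter_add_card_filter_not (s := (Finset.univ : Finset (Fin n)))
      (fun i => Rel H i0 i)
    rw [Finset.card_univ, Fintype.card_fin] at c3
    have c4 : 0 < (Finset.univ.filter (fun i => Rel H i0 i)).card :=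
      Finset.card_pos.2 ⟨_, hmem⟩
    have c5 := Finset.card_insert_le (1 : Perm (Fin n)) (S1 ∪ S2)
    have c6 := Finset.card_union_le S1 S2
    omega
  · intro h hh
    have hH : h ∈ H := by
      have := hh 1 (Finset.mem_insert_self _ _)
      simpa using this
    have hedge : ∀ i j, Rel H i0 i → ¬ Rel H i0 j → swap i j * h * swap i j ∈ H →
        (h i = i ∧ h j = j) ∨ (h i = j ∧ h j = i) := by
      intro i j hi hj hm
      have hij : i ≠ j := by
        rintro rfl
        exact hj hi
      have h1 := edge_mem hH hm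
      have h2 := key i j (h i) (h j) hi hj (fun h' => hij (h.injective h')) h1
      exact h2
    have hE1 : ∀ j, ¬ Rel H i0 j → (h i0 = i0 ∧ h j = j) ∨ (h i0 = j ∧ h j = i0) := by
      intro j hj
      apply hedge i0 j (Or.inl rfl) hj
      have := hh (swap i0 j) (Finset.mem_insert_of_mem (Finset.mem_union_left _
        (Finset.mem_image.2 ⟨j, Finset.mem_filter.2 ⟨Finset.mem_univ _, hj⟩, rfl⟩)))
      rwa [swap_inv] at this
    have hE2 : ∀ i, Rel H i0 i → i ≠ i0 → (h i = i ∧ h j0 = j0) ∨ (h i = j0 ∧ h j0 = i) := by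
      intro i hi hne
      apply hedge i j0 hi hj0
      have := hh (swap i j0) (Finset.mem_insert_of_mem (Finset.mem_union_right _
        (Finset.mem_image.2 ⟨i, Finset.mem_erase.2 ⟨hne, Finset.mem_filter.2
          ⟨Finset.mem_univ _, hi⟩⟩, rfl⟩)))
      rwa [swap_inv] at this
    have hj0i0 : j0 ≠ i0 := fun h' => hj0 (Or.inl h'.symm)
    have hj0i1 : j0 ≠ i1 := fun h' => hj0 (h' ▸ r01)
    have a := hE1 j0 hj0
    have b := hE2 i1 r01 h01.symm
    have hfix : h j0 = j0 ∧ h i0 = i0 := by
      rcases a with ⟨a1, a2⟩ | ⟨a1, a2⟩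
      · exact ⟨a2, a1⟩
      · rcases b with ⟨b1, b2⟩ | ⟨b1, b2⟩
        · rw [a2] at b2
          exact absurd b2.symm hj0i0
        · rw [a2] at b2
          exact absurd b2 h01
    apply Equiv.ext
    intro x
    show h x = x
    by_cases hx : Rel H i0 x
    · by_cases hxi : x = i0
      · rw [hxi]
        exact hfix.2
      · rcases hE2 x hx hxi with ⟨h1, -⟩ | ⟨-, h1⟩
        · exact h1
        · rw [hfix.1] at h1
          exact absurd (h1 ▸ hx) hj0
    · rcases hE1 x hx with ⟨-, h1⟩ | ⟨h1, -⟩
      · exact h1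
      · rw [hfix.2] at h1
        exact absurd (Or.inl h1) hx

/-- Case 2: the subgroup contains no 3-cycle. -/
theorem case_two (hn : 5 ≤ n) (h3 : ∀ c ∈ H, ¬ IsThreeCycle c) :
    ∃ S : Finset (Perm (Fin n)), S.card + 3 ≤ n ∧ ∀ K : Subgroup (Perm (Fin n)),
      (∀ h ∈ K, ∀ g ∈ S, g⁻¹ * h * g ∈ H) → Nat.card K ≤ n ∧ (13 ≤ n → Nat.card K ≤ 2) := by
  classical
  have hadj : ∀ i j k : Fin n, i ≠ j → i ≠ k → j ≠ k → swap i j * swap i k ∉ H :=
    fun i j k h1 h2 h4 hm => h3 _ hm (three_of_adj h1 h2 h4)
  -- partners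
  have hpar : ∀ x : Fin n, ∃ p : Fin n, ∀ y, y ≠ x → swap x y ∈ H → y = p := by
    intro x
    by_cases hex : ∃ p, p ≠ x ∧ swap x p ∈ H
    · obtain ⟨p, hp1, hp2⟩ := hex
      refine ⟨p, fun y hy hyH => ?_⟩
      by_contra hne
      exact hadj x y p (Ne.symm hy) (Ne.symm hp1) hne (H.mul_mem hyH hp2)
    · push Not at hex
      exact ⟨x, fun y hy hyH => absurd hyH (hex y hy)⟩
  choose par hpar using hpar
  -- three points without transpositions in `H`
  have hcardn : (Finset.univ : Finset (Fin n)).card = n := by simp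
  have hpick : ∀ s : Finset (Fin n), s.card < n → ∃ x, x ∉ s := by
    intro s hs
    by_contra hcon
    push Not at hcon
    have : s = Finset.univ := Finset.eq_univ_of_forall hcon
    rw [this, hcardn] at hs
    omega
  let x : Fin n := ⟨0, by omega⟩
  obtain ⟨y, hy⟩ := hpick {x, par x} (by
    have := Finset.card_le_two (a := x) (b := par x)
    omega)
  obtain ⟨z, hz⟩ := hpick {x, par x, y, par y} (by
    have := Finset.card_le_four (a := x) (b := par x) (c := y) (d := par y)
    omega)
  simp only [Finset.mem_insert, Finset.mem_singleton, not_or] at hy hz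
  have hxy : swap x y ∉ H := fun h => hy.2 (hpar x y hy.1 h)
  have hxz : swap x z ∉ H := fun h => hz.2.1 (hpar x z hz.1 h)
  have hyz : swap y z ∉ H := fun h => hz.2.2.2 (hpar y z hz.2.2.1 h)
  obtain ⟨v, hv⟩ := hpick {x, y, z} (by
    have := Finset.card_le_three (a := x) (b := y) (c := z)
    omega)
  simp only [Finset.mem_insert, Finset.mem_singleton, not_or] at hv
  let J : Finset (Fin n) := Finset.univ \ {v, x, y, z}
  have hJmem : ∀ j, j ∈ J ↔ (j ≠ v ∧ j ≠ x ∧ j ≠ y ∧ j ≠ z) := by
    intro j
    simp only [J, Finset.mem_sdiff, Finset.mem_univ, true_and, Finset.mem_insert,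
      Finset.mem_singleton, not_or]
  have hJcard : J.card + 4 = n := by
    have h1 : ({v, x, y, z} : Finset (Fin n)).card = 4 := by
      rw [Finset.card_insert_of_notMem, Finset.card_insert_of_notMem,
        Finset.card_insert_of_notMem, Finset.card_singleton]
      · simp only [Finset.mem_singleton]
        exact Ne.symm hz.2.2.1
      · simp only [Finset.mem_insert, Finset.mem_singleton, not_or]
        exact ⟨Ne.symm hy.1, Ne.symm hz.1⟩
      · simp only [Finset.mem_insert, Finset.mem_singleton, not_or]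
        exact hv
    have h2 := Finset.card_sdiff_add_card_eq_card (Finset.subset_univ ({v, x, y, z} : Finset (Fin n)))
    rw [h1, hcardn] at h2
    exact h2
  refine ⟨insert 1 (J.image (fun j => swap v j)), ?_, ?_⟩
  · have c1 := Finset.card_insert_le (1 : Perm (Fin n)) (J.image (fun j => swap v j))
    have c2 := Finset.card_image_le (s := J) (f := fun j => swap v j)
    omega
  intro K hK
  have hKH : ∀ h ∈ K, h ∈ H := by
    intro h hh
    have := hK h hh 1 (Finset.mem_insert_self _ _)
    simpa using this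
  have hE : ∀ h ∈ K, ∀ j ∈ J, swap (h v) (h j) * swap v j ∈ H := by
    intro h hh j hj
    apply edge_mem (hKH h hh)
    have := hK h hh (swap v j) (Finset.mem_insert_of_mem (Finset.mem_image.2 ⟨j, hj, rfl⟩))
    rwa [swap_inv] at this
  -- the stabilizer of `v` is trivial
  have hstab : ∀ h ∈ K, h v = v → h = 1 := by
    intro h hh hv1
    have hfixJ : ∀ j ∈ J, h j = j := by
      intro j hj
      by_contra hne
      have h1 := hE h hh j hj
      rw [hv1] at h1
      have hjv : j ≠ v := ((hJmem j).1 hj).1
      have h2 : h j ≠ v := by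
        intro h'
        exact hjv (h.injective (h'.trans hv1.symm))
      exact hadj v (h j) j (Ne.symm h2) (Ne.symm hjv) hne h1
    have hsupp : h.support ⊆ {x, y, z} := by
      intro w hw
      rw [mem_support] at hw
      by_contra hcon
      simp only [Finset.mem_insert, Finset.mem_singleton, not_or] at hcon
      by_cases hwv : w = v
      · rw [hwv] at hw
        exact hw hv1
      · exact hw (hfixJ w ((hJmem w).2 ⟨hwv, hcon.1, hcon.2.1, hcon.2.2⟩))
    have hc := Finset.card_le_card hsupp
    have hc3 := Finset.card_le_three (a := x) (b := y) (c := z)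
    have hne1 := card_support_ne_one h
    rcases Nat.lt_or_ge h.support.card 2 with h0 | h0
    · exact card_support_le_one.1 (by omega)
    rcases Nat.lt_or_ge h.support.card 3 with h0' | h0'
    · exfalso
      have hsw := card_support_eq_two.1 (by omega : h.support.card = 2)
      obtain ⟨a, b, hab, rfl⟩ := hsw
      have ha : a ∈ ({x, y, z} : Finset (Fin n)) := hsupp (by
        rw [mem_support, swap_apply_left]
        exact Ne.symm hab)
      have hb : b ∈ ({x, y, z} : Finset (Fin n)) := hsupp (by
        rw [mem_support, swap_apply_right]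
        exact hab)
      have hm := hKH _ hh
      simp only [Finset.mem_insert, Finset.mem_singleton] at ha hb
      rcases ha with rfl | rfl | rfl <;> rcases hb with rfl | rfl | rfl
      · exact hab rfl
      · exact hxy hm
      · exact hxz hm
      · rw [swap_comm] at hm
        exact hxy hm
      · exact hab rfl
      · exact hyz hm
      · rw [swap_comm] at hm
        exact hxz hm
      · rw [swap_comm] at hm
        exact hyz hm
      · exact hab rfl
    · exfalso
      exact h3 h (hKH h hh) (card_support_eq_three_iff.1 (by omega))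
  have hinj : ∀ g ∈ K, ∀ h ∈ K, g v = h v → g = h := by
    intro g hg h hh hgh
    have h1 : h⁻¹ * g ∈ K := K.mul_mem (K.inv_mem hh) hg
    have h2 : (h⁻¹ * g) v = v := by
      show h⁻¹ (g v) = v
      rw [hgh]
      exact h.symm_apply_apply v
    have h4 := hstab _ h1 h2
    rw [inv_mul_eq_one] at h4
    exact h4.symm
  constructor
  · have := Nat.card_le_card_of_injective (fun g : K => g.1 v)
      (fun g h hgh => Subtype.ext (hinj g.1 g.2 h.1 h.2 hgh))
    have h5 : Nat.card (Fin n) = n := by simp
    rw [h5] at this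
    exact this
  · intro hn13
    by_contra hcard
    push Not at hcard
    -- two different nontrivial elements
    have hex : ∃ g ∈ K, ∃ h ∈ K, g ≠ 1 ∧ h ≠ 1 ∧ g ≠ h := by
      rw [Nat.card_eq_fintype_card] at hcard
      obtain ⟨a, b, c, hab, hac, hbc⟩ := Fintype.two_lt_card_iff.1 hcard
      by_cases ha : a = 1
      · refine ⟨b.1, b.2, c.1, c.2, ?_, ?_, ?_⟩
        · intro h'
          apply hab
          rw [ha]
          exact Subtype.ext h'.symm
        · intro h'
          apply hac
          rw [ha]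
          exact Subtype.ext h'.symm
        · exact fun h' => hbc (Subtype.ext h')
      · by_cases hb : b = 1
        · refine ⟨a.1, a.2, c.1, c.2, fun h' => ha (Subtype.ext h'), ?_,
            fun h' => hac (Subtype.ext h')⟩
          intro h'
          apply hbc
          rw [hb]
          exact Subtype.ext h'.symm
        · exact ⟨a.1, a.2, b.1, b.2, fun h' => ha (Subtype.ext h'),
            fun h' => hb (Subtype.ext h'), fun h' => hab (Subtype.ext h')⟩
    obtain ⟨h, hh, g, hg, hh1, hg1, hne⟩ := hex
    have hva : h v ≠ v := fun h' => hh1 (hstab h hh h')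
    have hva' : g v ≠ v := fun h' => hg1 (hstab g hg h')
    have haa' : h v ≠ g v := fun h' => hne (hinj h hh g hg h')
    -- general facts
    have fact1 : ∀ g ∈ K, g v ≠ v → ∀ j ∈ J, g j ≠ j := by
      intro g hg hgv j hj h'
      have h1 := hE g hg j hj
      have hjv : j ≠ v := ((hJmem j).1 hj).1
      have hgj : g v ≠ j := by
        intro h''
        exact hjv (g.injective (h'.trans h''.symm))
      rw [h', swap_comm (g v) j, swap_comm v j] at h1
      exact hadj j (g v) v (Ne.symm hgj) hjv hgv h1
    have fact2 : ∀ g ∈ K, g v ≠ v → ∀ j ∈ J, j ≠ g v → g j ≠ v := by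
      intro g hg hgv j hj hjg h'
      have h1 := hE g hg j hj
      have hjv : j ≠ v := ((hJmem j).1 hj).1
      rw [h', swap_comm (g v) v] at h1
      exact hadj v (g v) j (Ne.symm hgv) (Ne.symm hjv) (Ne.symm hjg) h1
    -- the choice of `j` and `k`
    obtain ⟨j, hj⟩ : ∃ j ∈ J, j ∉ ({h v, g v, h⁻¹ (g v)} : Finset (Fin n)) := by
      by_contra hcon
      push Not at hcon
      have h1 := Finset.card_le_card (fun j hj => hcon j hj :
        J ⊆ ({h v, g v, h⁻¹ (g v)} : Finset (Fin n)))
      have h2 := Finset.card_le_three (a := h v) (b := g v) (c := h⁻¹ (g v))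
      omega
    obtain ⟨hjJ, hj⟩ := hj
    obtain ⟨k, hk⟩ : ∃ k ∈ J, k ∉ ({j, h v, h j, h⁻¹ j} ∪ {g j, h⁻¹ (g j), g v, h⁻¹ (g v)} :
        Finset (Fin n)) := by
      by_contra hcon
      push Not at hcon
      have h1 := Finset.card_le_card (fun j hj => hcon j hj :
        J ⊆ ({j, h v, h j, h⁻¹ j} ∪ {g j, h⁻¹ (g j), g v, h⁻¹ (g v)} : Finset (Fin n)))
      have h2 := Finset.card_union_le ({j, h v, h j, h⁻¹ j} : Finset (Fin n))
        {g j, h⁻¹ (g j), g v, h⁻¹ (g v)}
      have h4 := Finset.card_le_four (a := j) (b := h v) (c := h j) (d := h⁻¹ j)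
      have h5 := Finset.card_le_four (a := g j) (b := h⁻¹ (g j)) (c := g v) (d := h⁻¹ (g v))
      omega
    obtain ⟨hkJ, hk⟩ := hk
    simp only [Finset.mem_insert, Finset.mem_singleton, not_or, Finset.mem_union] at hj hk
    obtain ⟨j1, j2, j3⟩ := hj
    obtain ⟨⟨k1, k2, k3, k4⟩, k5, k6, k7, k8⟩ := hk
    have hinvne : ∀ a b : Fin n, a ≠ h⁻¹ b → h a ≠ b := by
      intro a b hab h'
      apply hab
      rw [← h']
      exact (h.symm_apply_apply a).symm
    have j3' : h j ≠ g v := hinvne _ _ j3
    have k4' : h k ≠ j := hinvne _ _ k4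
    have k6' : h k ≠ g j := hinvne _ _ k6
    have k8' : h k ≠ g v := hinvne _ _ k8
    have hjv : j ≠ v := ((hJmem j).1 hjJ).1
    have hkv : k ≠ v := ((hJmem k).1 hkJ).1
    have hjj : h j ≠ j := fact1 h hh hva j hjJ
    have hkk : h k ≠ k := fact1 h hh hva k hkJ
    have gjj : g j ≠ j := fact1 g hg hva' j hjJ
    have hjv' : h j ≠ v := fact2 h hh hva j hjJ j1
    have hkv' : h k ≠ v := fact2 h hh hva k hkJ k2
    have gjv' : g j ≠ v := fact2 g hg hva' j hjJ j2
    have hja : h j ≠ h v := fun h' => hjv (h.injective h')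
    have hka : h k ≠ h v := fun h' => hkv (h.injective h')
    have hjk : h j ≠ h k := fun h' => k1 (h.injective h').symm
    have A := hE h hh j hjJ
    have B := hE h hh k hkJ
    have D := hE g hg j hjJ
    -- `h j ≠ g j`
    have hgj : h j ≠ g j := by
      intro h'
      have h1 : swap (h v) (h j) * swap v j * (swap (g v) (g j) * swap v j)⁻¹ ∈ H :=
        H.mul_mem A (H.inv_mem D)
      rw [← h', mul_inv_rev, swap_inv, swap_inv, mul_assoc, ← mul_assoc (swap v j), swap_mul_self,
        one_mul, swap_comm (h v), swap_comm (g v)] at h1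
      exact hadj (h j) (h v) (g v) hja j3' haa' h1
    -- the conjugate
    set b := swap (h v) (h k) * swap v k with hb
    have bv : b v = k := by
      rw [hb, mul_apply, swap_apply_left, swap_apply_of_ne_of_ne k2 (Ne.symm hkk)]
    have bj : b j = j := by
      rw [hb, mul_apply, swap_apply_of_ne_of_ne hjv (Ne.symm k1),
        swap_apply_of_ne_of_ne j1 (Ne.symm k4')]
    have ba : b (h v) = h k := by
      rw [hb, mul_apply, swap_apply_of_ne_of_ne hva (Ne.symm k2), swap_apply_left]
    have bhj : b (h j) = h j := by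
      rw [hb, mul_apply, swap_apply_of_ne_of_ne hjv' (Ne.symm k3),
        swap_apply_of_ne_of_ne hja hjk]
    have hu : swap (h k) (h j) * swap k j ∈ H := by
      have h1 : b * (swap (h v) (h j) * swap v j) * b⁻¹ ∈ H :=
        H.mul_mem (H.mul_mem B A) (H.inv_mem B)
      rwa [conj_two, ba, bhj, bv, bj] at h1
    set u := swap (h k) (h j) * swap k j with huu
    have uv : u v = v := by
      rw [huu, mul_apply, swap_apply_of_ne_of_ne (Ne.symm hkv) (Ne.symm hjv),
        swap_apply_of_ne_of_ne (Ne.symm hkv') (Ne.symm hjv')]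
    have uj : u j = k := by
      rw [huu, mul_apply, swap_apply_right, swap_apply_of_ne_of_ne (Ne.symm hkk) k3]
    have ua : u (g v) = g v := by
      rw [huu, mul_apply, swap_apply_of_ne_of_ne (Ne.symm k7) (Ne.symm j2),
        swap_apply_of_ne_of_ne (Ne.symm k8') (Ne.symm j3')]
    have ugj : u (g j) = g j := by
      rw [huu, mul_apply, swap_apply_of_ne_of_ne (Ne.symm k5) gjj,
        swap_apply_of_ne_of_ne (Ne.symm k6') (Ne.symm hgj)]
    have hD' : swap (g v) (g j) * swap v k ∈ H := by
      have h1 : u * (swap (g v) (g j) * swap v j) * u⁻¹ ∈ H :=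
        H.mul_mem (H.mul_mem hu D) (H.inv_mem hu)
      rwa [conj_two, ua, ugj, uv, uj] at h1
    have hfin : swap v j * swap v k ∈ H := by
      have h1 := H.mul_mem (H.inv_mem D) hD'
      rw [mul_inv_rev, swap_inv, swap_inv, mul_assoc, ← mul_assoc (swap (g v) (g j)),
        swap_mul_self, one_mul] at h1
      exact h1
    exact hadj v j k (Ne.symm hjv) (Ne.symm hkv) (Ne.symm k1) hfin

end Q6.BaseSn
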